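import Pool.Agent.Helper71_HNF.Stmt

/-!
# HNF: statements for the engines
-/

set_option autoImplicit false

namespace Pool.Agent.HNF

open Topology Set MeasureTheory

section

variable {G : Type} [Group G] [TopologicalSpace G]

/-- The conditions on the data which do not depend on the engine, except `dec` and `lema`. -/
structure Base (I : Idx) (N : LNorm G) (q : ℕ → G) (D : Dat G) : Prop where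
  g_zero : D.g 0 = 1
  g_succ : ∀ t, 0 < t → D.g t = D.v t * D.g (I.par t)
  A_open : ∀ t, IsOpen (D.A t)
  A_one : ∀ t, (1 : G) ∈ D.A t
  L_open : ∀ t, IsOpen (D.L t)
  L_one : ∀ t, (1 : G) ∈ D.L t
  e_pos : ∀ t, 0 < D.e t
  η_pos : ∀ t, 0 < D.η t
  nest : ∀ t, 0 < t → ∀ a ∈ D.A t, a * D.v t ∈ D.A (I.par t)
  conv : ∀ c : ℕ → ℕ, (∀ k, 0 < c (k + 1) ∧ I.par (c (k + 1)) = c k) →
    ∃ g : G, ∀ k, g * (D.g (c k))⁻¹ ∈ D.A (c k)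
  η_anti : ∀ s t, s ≤ t → D.η t ≤ D.η s
  /-- windows do not move the right names of their own node -/
  right : ∀ t, 0 < t → ∀ i < I.rd t, ∀ a ∈ D.A t,
    N.N ((D.g t * q i)⁻¹ * a * (D.g t * q i)) < D.η (I.th t)
  /-- windows and thickness do not move the right names of older nodes -/
  inv : ∀ t t', 0 < t' → t' < t → ∀ i < I.rd t', ∀ a ∈ D.A t, ∀ l ∈ D.L t,
    N.N ((D.g t' * q i)⁻¹ * (a * l) * (D.g t' * q i)) ≤ D.η (I.th t')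

/-- (E1BAD, 1) the finiteness of the bad sets of engine I, common form. -/
def E1BadStmt : Prop := ∀ (G : Type) [Group G] [TopologicalSpace G] [IsTopologicalGroup G]
  (N : LNorm G) (W0 U V V1 V2 : Set G) (θ : ℕ → G),
  (∀ x ∈ W0, ∀ c : ℕ → G, (∀ l, c l ∈ U) → ∃ l l', l ≠ l' ∧ x * c l * (c l')⁻¹ * x⁻¹ ∈ V1) →
  (∀ a ∈ V2, ∀ w ∈ V1, ∀ b ∈ V2, a * w * b⁻¹ ∈ V) →
  (∀ l l', l ≠ l' → θ l * (θ l')⁻¹ ∉ V) →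
  ∀ (X : Set G) (β : G) (r : ℝ), (∀ x ∈ X, ∀ x' ∈ X, N.N (x⁻¹ * x') < r) →
  (∀ g, N.N g < 4 * r → β * g * β⁻¹ ∈ U) →
  ∀ (T : Set G), T ⊆ V2 → (∀ t ∈ T, ∀ l, ∀ x ∈ X, t⁻¹ * θ l * x * β⁻¹ ∈ W0) →
  ∀ b : G, {l | ∃ x ∈ X, ∃ t ∈ T, N.N ((t * b)⁻¹ * (θ l * x)) < r}.Finite

/-- (E1BAD, 2) second form: the base point of the target is used. -/
def E1BadStmt' : Prop := ∀ (G : Type) [Group G] [TopologicalSpace G] [IsTopologicalGroup G]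
  (N : LNorm G) (W0 U V V1 V2 : Set G) (θ : ℕ → G),
  (∀ x ∈ W0, ∀ c : ℕ → G, (∀ l, c l ∈ U) → ∃ l l', l ≠ l' ∧ x * c l * (c l')⁻¹ * x⁻¹ ∈ V1) →
  (∀ a ∈ V2, ∀ w ∈ V1, ∀ b ∈ V2, a * w * b⁻¹ ∈ V) → (1 : G) ∈ V2 →
  (∀ l l', l ≠ l' → θ l * (θ l')⁻¹ ∉ V) →
  ∀ (X : Set G) (r : ℝ), (∀ x ∈ X, ∀ x' ∈ X, N.N (x⁻¹ * x') < r) →
  ∀ (w β s : G), w ∈ W0 → N.N s < r → (∀ g, N.N g < 4 * r → β * g * β⁻¹ ∈ U) →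
  {l | ∃ x ∈ X, N.N ((w * β * s)⁻¹ * (θ l * x)) < r}.Finite

/-! ### Engine II -/

/-- served pairs -/
def Srv (N : LNorm G) (B β : Set G) (Q : Set (G × ℝ)) : Prop :=
  ∀ C : Set G, C.Finite → ∃ τ ∈ B, (∀ s ∈ β, τ * s ∈ B) ∧
    ∀ p ∈ Q, ∀ c ∈ C, ∀ s ∈ β, p.2 ≤ N.N (c⁻¹ * (τ * s * p.1))

/-- an own sequence of engine II in `A'` -/
structure Own (N : LNorm G) (A' : Set G) (e : ℝ) (a : ℕ → G) : Prop where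
  pos : 0 < e
  mem : ∀ m, a m ∈ A'
  sep : ∀ m m', m ≠ m' → e ≤ N.N ((a m)⁻¹ * a m')
  disp : ∀ U ∈ 𝓝 (1 : G), ∃ m₀, ∀ m ≥ m₀, ∃ b : ℕ → G, (∀ k, b k ∈ U) ∧
    ∀ k k', k ≠ k' → e ≤ N.N ((b k * a m)⁻¹ * (b k' * a m))

/-- (E2OWN) -/
def E2OwnStmt : Prop := ∀ (G : Type) [Group G] [TopologicalSpace G] [IsTopologicalGroup G]
  [PolishSpace G], (∀ W ∈ 𝓝 (1 : G), ¬ Phi W) → ∀ (N : LNorm G), ∀ A' ∈ 𝓝 (1 : G),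
  ∃ e a, Own N A' e a

/-- (E2STEP) the choice of `v` at a node, and the new reserve. `B' w`, `Q w` (`w` in the finite
set `S` of older nodes) are the families, `B`, `QP` those of the parent. -/
def E2StepStmt : Prop := ∀ (G : Type) [Group G] [TopologicalSpace G] [IsTopologicalGroup G]
  [PolishSpace G] (N : LNorm G) (A' : Set G) (e : ℝ) (a : ℕ → G), Own N A' e a →
  ∀ (t p : ℕ), p < t → ∀ (B : ℕ → Set G) (Q : ℕ → Set (G × ℝ)) (β : Set G), β ∈ 𝓝 (1 : G) →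
  (∀ w, (Q w).Finite) → (∀ w, ∀ x ∈ Q w, 0 < x.2) → (∀ w < t, Srv N (B w) β (Q w)) →
  ∀ (C : Set G), C.Finite → ∀ (Z : Set G), Z.Finite → ∀ ρ : ℝ, 0 < ρ → ρ ≤ 1 →
  (∀ ζ ∈ Z, ∃ x, N.N (ζ⁻¹ * x) < ρ / 1000 ∧ Lev N e x ρ) →
  ∃ τ ∈ B p, ∃ m, ∃ β' ∈ 𝓝 (1 : G), β' ⊆ β ∧
    (∀ x ∈ Q p, ∀ c ∈ C, x.2 / 10 ≤ N.N (c⁻¹ * ((τ⁻¹ * a m)⁻¹ * x.1))) ∧
    (∀ ζ ∈ Z, ∀ c ∈ C, ρ / 4 ≤ N.N (c⁻¹ * (τ⁻¹ * a m * ζ))) ∧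
    ∀ w < t, Srv N (B w) β' (Q w ∪ {x | ∃ ζ ∈ Z, x = (τ⁻¹ * a m * ζ, ρ / 8)})

end

end Pool.Agent.HNF
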