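import Pool.Agent.Helper71_HNF.Defs
import Pool.Agent.Helper61_HN.Diag

/-!
# HNF: statements of the modules

Every module is a `Prop`; the theorem of a module has the statements it uses as hypotheses.
-/

set_option autoImplicit false

namespace Pool.Agent.HNF

open Topology Set MeasureTheory

/-! ## General topology of groups -/

/-- MET: left invariant metric (Birkhoff-Kakutani). Copy `HN.exists_biInv` with one-sided
translations. -/
def MetStmt : Prop := ∀ (G : Type) [Group G] [TopologicalSpace G] [IsTopologicalGroup G]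
  [PolishSpace G], Nonempty (LNorm G)

/-- GAU: `Sm n S := diam S ≤ 2^-n` for a complete metric. -/
def GauStmt : Prop := ∀ (G : Type) [TopologicalSpace G] [PolishSpace G], Nonempty (Gauge G)

/-- SEP: right separated sequences in every neighbourhood (Raikov completeness of Polish groups;
compare `HN.BiInv.complete`, `HN.BiInv.not_tb`). -/
def SepStmt : Prop := ∀ (G : Type) [Group G] [TopologicalSpace G] [IsTopologicalGroup G]
  [PolishSpace G], ¬ LocallyCompactSpace G → ∀ A ∈ 𝓝 (1 : G), ∃ V ∈ 𝓝 (1 : G), ∃ θ : ℕ → G,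
    (∀ l, θ l ∈ A) ∧ ∀ l l', l ≠ l' → θ l * (θ l')⁻¹ ∉ V

/-! ## Combinatorics -/

/-- REC: the record argument. Four strictly increasing sequences of times with disjoint ranges,
indexed by `Bool × Bool`. With `P = (i,j)`, `M = (!i,j)`, `N = (i,!j)`, `O = (!i,!j)`. -/
def RecStmt : Prop := ∀ n : Bool → Bool → ℕ → ℕ, (∀ i j, StrictMono (n i j)) →
  (∀ i j i' j' k l, (i, j) ≠ (i', j') → n i j k ≠ n i' j' l) →
  ∃ i j kP kM kN kO,
    n i j kP < n (!i) j kM ∧ n (!i) j kM < n i j (kP + 1) ∧ n i j (kP + 1) < n (!i) j (kM + 1) ∧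
    n i j kP < n i (!j) kN ∧ n i (!j) kN < n (!i) (!j) kO ∧ n (!i) (!j) kO < n i j (kP + 1)

/-- IDX: there is a concrete index system. -/
def IdxStmt : Prop := ∃ I : Idx, Conc I

/-! ## The frame -/

section

variable {G : Type} [Group G] [TopologicalSpace G]

/-- `z` lies in the branch with universe `u`, bits `x`; visit times `n k`, readings `m k`, nodes
`c k` (`c 0 = 0` is the root; `c (k+1)` is created at time `n k`). -/
structure Chain (I : Idx) (N : LNorm G) (q : ℕ → G) (D : Dat G) (u : Univ) (x : ℕ → Bool)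
    (z : G) (n m c : ℕ → ℕ) : Prop where
  zero : c 0 = 0
  node : ∀ k, IsNode (hist u (n k)) (m k) (x k) (c (k + 1))
  par : ∀ k, (lab (hist u (n k))).1 = c k
  mem : ∀ k, z ∈ Pc I N q D (c (k + 1))

def InF (I : Idx) (N : LNorm G) (q : ℕ → G) (D : Dat G) (u : Univ) (x : ℕ → Bool) (z : G) :
    Prop := ∃ n m c, Chain I N q D u x z n m c

end

/-- CHN: visit times increase; nodes and readings of earlier times are bounded by the prefix
indices of later times. -/
def ChnStmt : Prop := ∀ (G : Type) [Group G] [TopologicalSpace G] (I : Idx), Conc I →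
  ∀ (N : LNorm G) (q : ℕ → G) (D : Dat G) (u : Univ) (x : ℕ → Bool) (z : G) (n m c : ℕ → ℕ),
    Chain I N q D u x z n m c →
    StrictMono n ∧ (∀ k, 0 < c (k + 1)) ∧ (∀ k, I.par (c (k + 1)) = c k) ∧
    (∀ k, I.th (c (k + 1)) = pidx (hist u (n k))) ∧
    (∀ k s, n k < s → c (k + 1) < pidx (hist u s)) ∧
    (∀ k s, n k < s → I.mp (c (k + 2)) ≤ pidx (hist u s))

/-- SEPB: two chains of the same universe which are visited at the same time at steps `k+1` and
`l+1` have the same nodes before; so after the bits have separated the times are different. -/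
def SepbStmt : Prop := ∀ (G : Type) [Group G] [TopologicalSpace G] (I : Idx), Conc I →
  ∀ (N : LNorm G) (q : ℕ → G) (D : Dat G) (u : Univ) (x x' : ℕ → Bool) (z z' : G)
    (n m c n' m' c' : ℕ → ℕ),
    Chain I N q D u x z n m c → Chain I N q D u x' z' n' m' c' → x ≠ x' →
    ∃ k₀, ∀ k l, k₀ ≤ k → k₀ ≤ l → n k ≠ n' l

/-- SKEL: the domain `F` and the Borel decodings. -/
def SkelStmt : Prop := ∀ (G : Type) [Group G] [TopologicalSpace G] [IsTopologicalGroup G]
  [PolishSpace G] [MeasurableSpace G] [BorelSpace G] (I : Idx), Conc I →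
  ∀ (N : LNorm G) (q : ℕ → G) (D : Dat G), Good I N q D →
  ∃ (F : Set G) (π : G → Univ) (φ : G → ℕ → Bool), MeasurableSet F ∧ Measurable π ∧
    Measurable φ ∧ (∀ z ∈ F, InF I N q D (π z) (φ z) z) ∧
    ∀ u x z, InF I N q D u x z → z ∈ F ∧ π z = u ∧ φ z = x

/-- CAPT: capturing of compact sets. -/
def CaptStmt : Prop := ∀ (G : Type) [Group G] [TopologicalSpace G] [IsTopologicalGroup G]
  [PolishSpace G] (I : Idx), Conc I →
  ∀ (N : LNorm G) (q : ℕ → G), DenseRange q → ∀ (D : Dat G), Good I N q D →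
  ∀ K : Set G, IsCompact K → ∃ H : List (ℕ × ℕ) → ℕ, ∀ u : Univ,
    (∀ l n₀ : ℕ, ∃ n ≥ n₀, (u n).2 / 2 = l ∧ H (hist u (n + 1)) ≤ (u (n + 1)).1) →
    ∀ x : ℕ → Bool, ∃ g : G, ∀ k ∈ K, InF I N q D u x (g * k)

/-- RECT: no rectangle in one universe (from REC, CHN, SEPB). -/
def RectStmt : Prop := ∀ (G : Type) [Group G] [TopologicalSpace G] [IsTopologicalGroup G]
  [PolishSpace G] (I : Idx), Conc I →
  ∀ (N : LNorm G) (q : ℕ → G) (D : Dat G), Good I N q D →
  ∀ (u : Univ) (x : Bool → Bool → ℕ → Bool) (z : Bool → Bool → G),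
    (∀ i j, InF I N q D u (x i j) (z i j)) → (∀ i j i' j', (i, j) ≠ (i', j') → x i j ≠ x i' j') →
    z true true ≠ z true false * (z false false)⁻¹ * z false true

/-- CRIT (helper61): the criterion with blocks indexed by a universally null set. -/
def CritStmt : Prop := ∀ (G : Type) [Group G] [TopologicalSpace G] [IsTopologicalGroup G]
  [PolishSpace G] [MeasurableSpace G] [BorelSpace G] (X : Set Univ), UNull X →
  ∀ (F : Set G), MeasurableSet F → ∀ (π : G → Univ), Measurable π →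
  ∀ (φ : G → ℕ → Bool), Measurable φ →
  (∀ ν : Measure G, IsProbabilityMeasure ν → ∃ u ∈ X, ∀ x : ℕ → Bool, ∃ g h : G,
    ν {k | g * k * h ∈ F ∧ π (g * k * h) = u ∧ φ (g * k * h) = x} ≠ 0) →
  (∀ u ∈ X, ∀ z : Bool → Bool → G, (∀ i j, z i j ∈ F ∧ π (z i j) = u) →
    (∀ i j i' j', (i, j) ≠ (i', j') → φ (z i j) ≠ φ (z i' j')) →
    z true true ≠ z true false * (z false false)⁻¹ * z false true) →
  ∃ A : Set G, HN.GenHaarNull A ∧ ¬ HN.HaarNull A

/-- CAPX (helper81, helper82): the universally null set of universes. -/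
def CapxStmt : Prop := ∃ X : Set Univ, UNull X ∧ Captures X

/-! ## The engines -/

/-- the dichotomy -/
def Phi {G : Type} [Group G] [TopologicalSpace G] (W : Set G) : Prop :=
  ∀ V ∈ 𝓝 (1 : G), ∃ U ∈ 𝓝 (1 : G), ∀ x ∈ W, ∀ c : ℕ → G, (∀ l, c l ∈ U) →
    ∃ l l', l ≠ l' ∧ x * c l * (c l')⁻¹ * x⁻¹ ∈ V

/-- E1: engine I. -/
def E1Stmt : Prop := ∀ (G : Type) [Group G] [TopologicalSpace G] [IsTopologicalGroup G]
  [PolishSpace G], ¬ LocallyCompactSpace G → (∃ W ∈ 𝓝 (1 : G), Phi W) →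
  ∀ (I : Idx) (N : LNorm G) (q : ℕ → G), ∃ D : Dat G, Good I N q D

/-- E2: engine II. -/
def E2Stmt : Prop := ∀ (G : Type) [Group G] [TopologicalSpace G] [IsTopologicalGroup G]
  [PolishSpace G], (∀ W ∈ 𝓝 (1 : G), ¬ Phi W) →
  ∀ (I : Idx) (N : LNorm G) (q : ℕ → G), ∃ D : Dat G, Good I N q D

/-- MAIN -/
def MainStmt : Prop := ∀ (G : Type) [Group G] [TopologicalSpace G] [IsTopologicalGroup G]
  [PolishSpace G] [MeasurableSpace G] [BorelSpace G], ¬ LocallyCompactSpace G →
  ∃ A : Set G, HN.GenHaarNull A ∧ ¬ HN.HaarNull A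

end Pool.Agent.HNF
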