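import Pool.Agent.Helper71_HNF.StmtR
import Pool.Agent.Helper61_HN.Block
import Pool.Agent.Helper82_UN.Grz

/-!
# HNF: assembly
-/

set_option autoImplicit false

namespace Pool.Agent.HNF

open Topology Set MeasureTheory

/-- recursion along the natural numbers with local conditions -/
theorem exists_seq {α : Type*} [Inhabited α] (P : ℕ → (ℕ → α) → α → Prop)
    (hloc : ∀ n c c' a, (∀ m < n, c m = c' m) → P n c a → P n c' a)
    (hex : ∀ n c, (∀ m < n, P m c (c m)) → ∃ a, P n c a) : ∃ c : ℕ → α, ∀ n, P n c (c n) := by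
  classical
  obtain ⟨c, hc⟩ := HN.exists_local_seq
    (fun n c a => (∀ m < n, P m c (c m)) → P n c a) (by
      intro n c c' a h hP hm
      refine hloc n c c' a h (hP fun m hmn => ?_)
      have h1 := hm m hmn
      rw [← h m hmn] at h1
      exact hloc m c' c _ (fun k hk => (h k (hk.trans hmn)).symm) h1) (by
      intro n c
      by_cases h : ∀ m < n, P m c (c m)
      · obtain ⟨a, ha⟩ := hex n c h
        exact ⟨a, fun _ => ha⟩
      · exact ⟨default, fun h' => absurd h' h⟩)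
  refine ⟨c, fun n => ?_⟩
  induction n using Nat.strong_induction_on with
  | _ n ih => exact hc n ih

instance {G : Type} [One G] : Inhabited (R1 G) :=
  ⟨⟨1, 1, ∅, ∅, 0, fun _ => 1, ∅, ∅, ∅, ∅⟩⟩

instance {G : Type} [One G] : Inhabited (R2 G) :=
  ⟨⟨1, 1, ∅, ∅, 0, 0, ∅, ∅, fun _ => 1, ∅⟩⟩

theorem e1 (hLoc : E1LocStmt) (hStp : E1StpStmt) (hDed : E1DedStmt) (hGau : GauStmt) :
    E1Stmt := by
  intro G _ _ _ _ hlc ⟨W0, hW0, hPhi⟩ I N q
  obtain ⟨Γ⟩ := hGau G
  have hcont : Filter.Tendsto (fun p : (G × G) × (G × G) => p.1.1⁻¹ * p.1.2⁻¹ * p.2.1 * p.2.2)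
      (𝓝 (((1 : G), (1 : G)), ((1 : G), (1 : G)))) (𝓝 1) := by
    have : Continuous (fun p : (G × G) × (G × G) => p.1.1⁻¹ * p.1.2⁻¹ * p.2.1 * p.2.2) := by
      fun_prop
    have h := this.tendsto (((1 : G), (1 : G)), ((1 : G), (1 : G)))
    simpa using h
  have h1 := hcont hW0
  rw [Filter.mem_map, nhds_prod_eq, nhds_prod_eq, Filter.mem_prod_iff] at h1
  obtain ⟨S, hS, T, hT, hST⟩ := h1
  obtain ⟨S1, hS1, S2, hS2, hS12⟩ := Filter.mem_prod_iff.1 hS
  obtain ⟨T1, hT1, T2, hT2, hT12⟩ := Filter.mem_prod_iff.1 hT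
  obtain ⟨f, hf⟩ := exists_seq (α := R1 G) (fun n c a => Q1 I N q Γ W0 (S1 ∩ S2 ∩ (T1 ∩ T2)) n c a)
    (fun n c c' a h hq => hLoc G I N q Γ W0 _ n c c' a h hq)
    (fun n c h => hStp G hlc I N q Γ W0 _ hPhi
      (Filter.inter_mem (Filter.inter_mem hS1 hS2) (Filter.inter_mem hT1 hT2)) (by
        intro a ha b hb c hc d hd
        have h2 : ((a, b), (c, d)) ∈ S ×ˢ T := ⟨hS12 ⟨ha.1.1, hb.1.2⟩, hT12 ⟨hc.2.1, hd.2.2⟩⟩
        exact hST h2) n c h)
  exact ⟨D1 f, hDed G I N q Γ W0 _ f hf⟩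

theorem e2 (hLoc : E2LocStmt) (hStp : E2StpStmt) (hBase : E2BaseStmt) (hDec : E2DecStmt)
    (hLem : E2LemStmt) (hGau : GauStmt) : E2Stmt := by
  intro G _ _ _ _ hPhi I N q
  obtain ⟨Γ⟩ := hGau G
  obtain ⟨f, hf⟩ := exists_seq (α := R2 G) (fun n c a => Q2 I N q Γ n c a)
    (fun n c c' a h hq => hLoc G I N q Γ n c c' a h hq)
    (fun n c h => hStp G hPhi I N q Γ n c h)
  have hB := hBase G I N q Γ f hf
  exact ⟨D2 f, {
    g_zero := hB.g_zero
    g_succ := hB.g_succ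
    A_open := hB.A_open
    A_one := hB.A_one
    L_open := hB.L_open
    L_one := hB.L_one
    e_pos := hB.e_pos
    η_pos := hB.η_pos
    nest := hB.nest
    conv := hB.conv
    dec := hDec G I N q Γ f hf hB
    lema := hLem G I N q Γ f hf hB }⟩

theorem hist_eq (u : Univ) : ∀ n, Helper82UN.hist u n = hist u n
  | 0 => rfl
  | n + 1 => by rw [Helper82UN.hist, hist, hist_eq u n]

/-- CAPX from the set theory of helper82. -/
theorem capx : CapxStmt := by
  obtain ⟨X, hX, -, hcap⟩ := Helper82UN.universes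
  refine ⟨X, fun μ h1 h2 => hX μ h1 h2, fun H => ?_⟩
  obtain ⟨u, hu, hu'⟩ := hcap (fun l => H l.reverse)
  refine ⟨u, hu, fun l n₀ => ?_⟩
  obtain ⟨n, hn, hn1, hl, hH⟩ := hu' l (n₀ + 1)
  obtain ⟨k, rfl⟩ : ∃ k, n = k + 1 := ⟨n - 1, by omega⟩
  refine ⟨k, by omega, by simpa using hl, ?_⟩
  have key : ∀ m, ((List.range m).map u).reverse = hist u m := by
    intro m
    induction m with
    | zero => rfl
    | succ m ih => rw [List.range_succ, List.map_append, List.reverse_append, ih]; rfl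
  rw [key] at hH
  exact hH

/-- CRIT from the criterion of helper61. -/
theorem crit : CritStmt := by
  intro G _ _ _ _ _ _ X hX F hF π hπ φ hφ hcap hrect
  refine HN.criterion_block (Z := Univ) (Y := X) (fun ν h1 h2 => hX ν h1 h2) hF hπ hφ ?_ ?_
  · intro x ν hν
    obtain ⟨u, hu, h⟩ := hcap ν hν
    exact ⟨u, hu, h x⟩
  · intro w hw z₀₀ h00 z₁₀ h10 z₀₁ h01 z₁₁ h11 y00 y10 y01 y11 n1 n2 n3 n4 n5 n6
    refine hrect w hw (fun i j => cond i (cond j z₁₁ z₁₀) (cond j z₀₁ z₀₀)) ?_ ?_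
    · intro i j
      cases i <;> cases j <;> exact ⟨by assumption, by assumption⟩
    · intro i j i' j' hne
      cases i <;> cases j <;> cases i' <;> cases j' <;>
        first
        | exact absurd rfl hne
        | assumption
        | exact Ne.symm (by assumption)

/-- The positive part of S15063 from the modules. -/
theorem main_of (hMet : MetStmt) (hIdx : IdxStmt) (hSkel : SkelStmt) (hCapt : CaptStmt)
    (hRect : RectStmt) (hCrit : CritStmt) (hCapx : CapxStmt) (hE1 : E1Stmt) (hE2 : E2Stmt) :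
    MainStmt := by
  intro G _ _ _ _ _ _ hlc
  obtain ⟨N⟩ := hMet G
  obtain ⟨I, hI⟩ := hIdx
  obtain ⟨X, hX, hcapX⟩ := hCapx
  have hne : Nonempty G := ⟨1⟩
  obtain ⟨q, hq⟩ := TopologicalSpace.exists_dense_seq G
  obtain ⟨D, hD⟩ : ∃ D : Dat G, Good I N q D := by
    by_cases h : ∃ W ∈ 𝓝 (1 : G), Phi W
    · exact hE1 G hlc h I N q
    · push Not at h
      exact hE2 G h I N q
  obtain ⟨F, π, φ, hF, hπ, hφ, hin, hout⟩ := hSkel G I hI N q D hD
  refine hCrit G X hX F hF π hπ φ hφ ?_ ?_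
  · intro ν hν
    obtain ⟨K, hK, hν0⟩ : ∃ K : Set G, IsCompact K ∧ ν K ≠ 0 := by
      have h1 : (0 : ENNReal) < ν univ := by simp
      obtain ⟨K, -, hK, h2⟩ := MeasurableSet.univ.exists_lt_isCompact h1
      exact ⟨K, hK, h2.ne'⟩
    obtain ⟨H, hH⟩ := hCapt G I hI N q hq D hD K hK
    obtain ⟨u, hu, huH⟩ := hcapX H
    refine ⟨u, hu, fun x => ?_⟩
    obtain ⟨g, hg⟩ := hH u huH x
    refine ⟨g, 1, fun h0 => hν0 (measure_mono_null (fun k hk => ?_) h0)⟩
    have := hout u x (g * k) (hg k hk)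
    simpa using this
  · intro u hu z hz hne'
    refine hRect G I hI N q D hD u (fun i j => φ (z i j)) z (fun i j => ?_) hne'
    have h1 := hin (z i j) (hz i j).1
    rw [(hz i j).2] at h1
    exact h1

end Pool.Agent.HNF
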