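import Mathlib

/-!
# HNF: definitions

Haar null versus generically Haar null in arbitrary non locally compact Polish groups
(MP_921371_lc, S15063).  Blueprint: PLAN_HNF.md in the team store (note 1008).
-/

set_option autoImplicit false

namespace Pool.Agent.HNF

open Topology Set MeasureTheory

/-! ## The length function -/

/-- A bounded continuous length function which induces the topology; `N (x⁻¹ * y)` is a left
invariant compatible metric `d x y`. -/
structure LNorm (G : Type*) [Group G] [TopologicalSpace G] where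
  N : G → ℝ
  one : N 1 = 0
  inv : ∀ x, N x⁻¹ = N x
  mul_le : ∀ x y, N (x * y) ≤ N x + N y
  le_one : ∀ x, N x ≤ 1
  cont : Continuous N
  basis : ∀ U ∈ 𝓝 (1 : G), ∃ ε > 0, ∀ x, N x < ε → x ∈ U

/-- A gauge: a notion of smallness of sets such that decreasing sequences of closed sets which are
smaller and smaller have a common point. -/
structure Gauge (G : Type*) [TopologicalSpace G] where
  Sm : ℕ → Set G → Prop
  mono : ∀ n S T, S ⊆ T → Sm n T → Sm n S
  anti : ∀ m n S, m ≤ n → Sm n S → Sm m S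
  nhds : ∀ n g, ∃ U ∈ 𝓝 g, Sm n U
  inter : ∀ C : ℕ → Set G, (∀ k, IsClosed (C k)) → (∀ k, (C k).Nonempty) →
    (∀ k, C (k + 1) ⊆ C k) → (∀ k, Sm k (C k)) → (⋂ k, C k).Nonempty

/-! ## Abstract index systems, data, pieces -/

/-- An index system: `par t` is the parent of the node `t`, `th t` the index of the prefix at
which `t` is created, `rd t` the reading of `t`, `mp t` the reading of its parent. -/
structure Idx where
  par : ℕ → ℕ
  th : ℕ → ℕ
  rd : ℕ → ℕ
  mp : ℕ → ℕ
  par_lt : ∀ t, 0 < t → par t < t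
  th_lt : ∀ t, 0 < t → th t < t
  par_lt_th : ∀ t, 0 < mp t → par t < th t
  mp_le : ∀ t, mp t ≤ th t

/-- The data of a construction. -/
structure Dat (G : Type*) where
  v : ℕ → G
  g : ℕ → G
  A : ℕ → Set G
  L : ℕ → Set G
  e : ℕ → ℝ
  η : ℕ → ℝ

section

variable {G : Type*} [Group G] [TopologicalSpace G]

/-- The level condition: every `y` of length at least `e` moves `x` by at least `r`. -/
def Lev (N : LNorm G) (e : ℝ) (x : G) (r : ℝ) : Prop :=
  ∀ y : G, e ≤ N.N y → r ≤ N.N (x⁻¹ * y * x)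

/-- The set of relevant points `x = g_p k` of the node `t` with parent `p`. -/
def Rel (I : Idx) (N : LNorm G) (q : ℕ → G) (D : Dat G) (t : ℕ) (x : G) : Prop :=
  (∃ i < I.rd t, N.N ((D.g (I.par t) * q i)⁻¹ * x) < D.η (I.th t)) ∧
  (∃ j < I.mp t, ∃ l ∈ D.L (I.par t), x = l * (D.g (I.par t) * q j)) ∧
  Lev N (D.e (I.par t)) x (1 / ((I.mp t : ℝ) + 1))

/-- The piece of the node `t`. -/
def Pc (I : Idx) (N : LNorm G) (q : ℕ → G) (D : Dat G) (t : ℕ) : Set G :=
  {z | ∃ a ∈ D.A t, ∃ x, Rel I N q D t x ∧ z = a * D.v t * x}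

/-- The good data: what the frame needs from the engines. -/
structure Good (I : Idx) (N : LNorm G) (q : ℕ → G) (D : Dat G) : Prop where
  g_zero : D.g 0 = 1
  g_succ : ∀ t, 0 < t → D.g t = D.v t * D.g (I.par t)
  A_open : ∀ t, IsOpen (D.A t)
  A_one : ∀ t, (1 : G) ∈ D.A t
  L_open : ∀ t, IsOpen (D.L t)
  L_one : ∀ t, (1 : G) ∈ D.L t
  e_pos : ∀ t, 0 < D.e t
  η_pos : ∀ t, 0 < D.η t
  nest : ∀ t, 0 < t → ∀ a ∈ D.A t, a * D.v t ∈ D.A (I.par t)
  conv : ∀ c : ℕ → ℕ, (∀ k, 0 < c (k + 1) ∧ I.par (c (k + 1)) = c k) →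
    ∃ g : G, ∀ k, g * (D.g (c k))⁻¹ ∈ D.A (c k)
  /-- siblings have disjoint pieces -/
  dec : ∀ t t', 0 < t → 0 < t' → t ≠ t' → I.par t = I.par t' →
    Disjoint (Pc I N q D t) (Pc I N q D t')
  /-- the pattern: `p = par n`, `w = par n'`, `o = par o'`; the nodes are visited in the order
  `p < tN < o < n`, `p < w < n < n'` -/
  lema : ∀ n n' o' tN : ℕ, 0 < n → 0 < n' → 0 < o' → 0 < tN →
    I.par n < I.th tN → I.mp n ≤ I.th tN → tN < I.th (I.par o') → I.par o' < I.th n →
    I.mp o' ≤ I.th n → I.par n < I.par n' → I.par n' < I.th n → I.mp n' ≤ I.th n →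
    n < I.th n' → 0 < I.par n' → 0 < I.par o' →
    ∀ zP ∈ Pc I N q D n, ∀ zM ∈ Pc I N q D n', ∀ zO ∈ Pc I N q D o', ∀ zN ∈ Pc I N q D tN,
      zP ≠ zM * zO⁻¹ * zN

end

/-! ## The concrete index system -/

/-- A universe: at time `n` the value `(u n).1` bounds the readings, `(u n).2` carries the label
of time `n + 1` and one digit of a tag. -/
abbrev Univ := ℕ → ℕ × ℕ

/-- The history of `u`, newest value first. -/
def hist (u : Univ) : ℕ → List (ℕ × ℕ)
  | 0 => []
  | n + 1 => u n :: hist u n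

/-- index of a prefix (newest value first) -/
def pidx : List (ℕ × ℕ) → ℕ
  | [] => 0
  | a :: s => 3 * Nat.pair (pidx s) (Nat.pair (a.1 + 1) a.2)

/-- index of the node created at the prefix `s` with reading `m` and bit `b` -/
def nidx (s : List (ℕ × ℕ)) (m : ℕ) (b : Bool) : ℕ :=
  3 * Nat.pair (pidx s) m + (if b then 2 else 1)

/-- the label of the prefix `s`: the parent state (node, reading) of the nodes created at `s` -/
def lab : List (ℕ × ℕ) → ℕ × ℕ
  | [] => (0, 0)
  | a :: _ => Nat.unpair (a.2 / 2)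

/-- the node `t` and its reading `m'` are visible at the prefix `s` -/
inductive Vis : List (ℕ × ℕ) → ℕ → ℕ → Prop
  | here (a : ℕ × ℕ) (s : List (ℕ × ℕ)) (m : ℕ) (b : Bool) (m' : ℕ) (hm : m ≤ a.1)
      (hm' : m' ≤ a.1) : Vis (a :: s) (nidx s m b) m'
  | later (a : ℕ × ℕ) (s : List (ℕ × ℕ)) (t m' : ℕ) (h : Vis s t m') : Vis (a :: s) t m'

/-- `t` is the node created at `s` with reading `m` and bit `b`, and its parent state is visible -/
def IsNode (s : List (ℕ × ℕ)) (m : ℕ) (b : Bool) (t : ℕ) : Prop :=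
  t = nidx s m b ∧ s ≠ [] ∧ ((lab s).1 = 0 ∨ Vis s (lab s).1 (lab s).2)

/-- a concrete index system -/
def Conc (I : Idx) : Prop :=
  (∀ s m b t, IsNode s m b t →
    I.par t = (lab s).1 ∧ I.th t = pidx s ∧ I.rd t = m ∧ I.mp t = (lab s).2) ∧
  (∀ t, 0 < I.mp t → ∃ s m b, IsNode s m b t)

/-! ## The set theoretic input -/

/-- universally null sets -/
def UNull {X : Type*} [MeasurableSpace X] (Y : Set X) : Prop :=
  ∀ μ : Measure X, IsFiniteMeasure μ → NoAtoms μ → μ Y = 0

/-- `X` captures: every rule is obeyed infinitely often at every label -/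
def Captures (X : Set Univ) : Prop :=
  ∀ H : List (ℕ × ℕ) → ℕ, ∃ u ∈ X, ∀ l n₀ : ℕ, ∃ n ≥ n₀,
    (u n).2 / 2 = l ∧ H (hist u (n + 1)) ≤ (u (n + 1)).1

end Pool.Agent.HNF
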