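import Pool.Agent.Helper71_HNF.StmtR

/-!
# HNF: E2LOC
-/

set_option autoImplicit false

namespace Pool.Agent.HNF.H71

open Topology Set

section

variable {G : Type} [Group G] [TopologicalSpace G]

theorem rel_loc (I : Idx) (N : LNorm G) (q : ℕ → G) (h h' : ℕ → R2 G) (t : ℕ)
    (hp : h (I.par t) = h' (I.par t)) (ht : h (I.th t) = h' (I.th t)) (x : G) :
    Rel I N q (D2 h) t x ↔ Rel I N q (D2 h') t x := by
  simp only [Rel, D2, hp, ht]

theorem relI_loc (I : Idx) (N : LNorm G) (q : ℕ → G) (h h' : ℕ → R2 G) (t i : ℕ)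
    (hp : h (I.par t) = h' (I.par t)) (ht : h (I.th t) = h' (I.th t)) (x : G) :
    RelI I N q (D2 h) t i x ↔ RelI I N q (D2 h') t i x := by
  simp only [RelI, Rel, D2, hp, ht]

theorem eps0_loc (q : ℕ → G) (h h' : ℕ → R2 G) (o j tN i : ℕ)
    (ho : h o = h' o) (hN : h tN = h' tN) :
    eps0 q (D2 h) o j tN i = eps0 q (D2 h') o j tN i := by
  simp only [eps0, D2, ho, hN]

theorem qlt_sub (I : Idx) (N : LNorm G) (q : ℕ → G) (h h' : ℕ → R2 G) (w t : ℕ)
    (hh : ∀ s < t, h s = h' s) : Qlt I N q (D2 h) w t ⊆ Qlt I N q (D2 h') w t := by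
  rintro x ⟨t', hw, ht', i, hi, ⟨y, hy⟩, rfl⟩
  have h0 : 0 < t' := lt_of_le_of_lt (Nat.zero_le _) hw
  refine ⟨t', hw, ht', i, hi, ⟨y, (relI_loc I N q h h' t' i
    (hh _ ((I.par_lt t' h0).trans ht')) (hh _ ((I.th_lt t' h0).trans ht')) y).1 hy⟩, ?_⟩
  simp only [D2, hh t' ht']

theorem cst_sub (I : Idx) (q : ℕ → G) (h h' : ℕ → R2 G) (t : ℕ) (h0 : 0 < t)
    (hh : ∀ s < t, h s = h' s) : Cst I q (D2 h) t ⊆ Cst I q (D2 h') t := by
  rintro x ((⟨t', ht', i, hi, rfl⟩ | ⟨i, hi, rfl⟩) |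
    ⟨i, hi, o, ho, j, hj, tN, hN, i', hi', rfl⟩)
  · refine Or.inl (Or.inl ⟨t', ht', i, hi, ?_⟩)
    simp only [D2, hh t' ht']
  · refine Or.inl (Or.inr ⟨i, hi, ?_⟩)
    simp only [D2, hh _ (I.par_lt t h0)]
  · refine Or.inr ⟨i, hi, o, ho, j, hj, tN, hN, i', hi', ?_⟩
    rw [eps0_loc q h h' o j tN i' (hh o ho) (hh tN hN)]
    simp only [D2, hh _ (I.par_lt t h0)]

end

theorem e2loc : E2LocStmt := by
  intro G _ _ I N q Γ t h h' a hh Q
  have hh' : ∀ s < t, h' s = h s := fun s hs => (hh s hs).symm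
  have hp : 0 < t → h (I.par t) = h' (I.par t) := fun ht => hh _ (I.par_lt t ht)
  have hth : 0 < t → h (I.th t) = h' (I.th t) := fun ht => hh _ (I.th_lt t ht)
  have hth' : ∀ s, 0 < s → s < t → h (I.th s) = h' (I.th s) :=
    fun s hs hst => hh _ ((I.th_lt s hs).trans hst)
  exact
  { zero := Q.zero
    v_mem := fun ht => by rw [← hp ht]; exact Q.v_mem ht
    g_eq := fun ht => by rw [← hp ht]; exact Q.g_eq ht
    A_open := Q.A_open
    A_one := Q.A_one
    L_open := Q.L_open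
    L_one := Q.L_one
    nest := fun ht => by rw [← hp ht]; exact Q.nest ht
    gauge := Q.gauge
    right := fun ht => by rw [← hth ht]; exact Q.right ht
    inv := fun t' ht' h0 => by
      rw [← hh t' ht', ← hth' t' h0 ht']; exact Q.inv t' ht' h0
    AB := Q.AB
    own := Q.own
    β := Q.β
    srv_self := Q.srv_self
    srv := fun w hw => by
      have h0 : 0 < t := lt_of_le_of_lt (Nat.zero_le _) hw
      rw [← hh w hw]
      intro C hC
      obtain ⟨τ, h1, h2, h3⟩ := Q.srv w hw C hC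
      refine ⟨τ, h1, h2, fun p hp' => h3 p ?_⟩
      rcases hp' with hp' | ⟨i, hi, ⟨y, hy⟩, rfl⟩
      · exact Or.inl (qlt_sub I N q h' h w t hh' hp')
      · exact Or.inr ⟨i, hi, ⟨y, (relI_loc I N q h h' t i (hp h0) (hth h0) y).2 hy⟩, rfl⟩
    η_pos := Q.η_pos
    η_le := fun s hs => by rw [← hh s hs]; exact Q.η_le s hs
    η_small := Q.η_small
    η_conj := fun o ho j hj tN htN h0 i hi g hg => by
      rw [← eps0_loc q h h' o j tN i (hh o ho) (hh tN htN), ← hth' tN h0 htN]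
      exact Q.η_conj o ho j hj tN htN h0 i hi g hg
    served := fun ht x hx c hc =>
      Q.served ht x (qlt_sub I N q h' h _ t hh' hx) c (cst_sub I q h' h t ht hh' hc)
    avoid := fun ht i hi hy c hc => by
      rw [← hp ht]
      refine Q.avoid ht i hi ?_ c (cst_sub I q h' h t ht hh' hc)
      obtain ⟨y, hy⟩ := hy
      exact ⟨y, (relI_loc I N q h h' t i (hp ht) (hth ht) y).2 hy⟩ }

end Pool.Agent.HNF.H71
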