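import Pool.Agent.Helper71_HNF.Asm

/-!
# HNF: the frozen statement S15063 from `MainStmt`
-/

set_option autoImplicit false

namespace Pool.Agent.HNF

open MeasureTheory

theorem fin_of (hMain : MainStmt) :
    ∀ (G : Type) [Group G] [TopologicalSpace G] [IsTopologicalGroup G] [PolishSpace G]
      [MeasurableSpace G] [BorelSpace G],
      ¬ LocallyCompactSpace G →
        (∀ A : Set G,
          (∃ B : Set G, MeasurableSet B ∧ A ⊆ B ∧
            ∃ μ : Measure G, IsProbabilityMeasure μ ∧
              ∀ g h : G, μ ((fun x => g * x * h) '' B) = 0) →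
          (∃ B : Set G,
            (∀ ν : Measure G, IsProbabilityMeasure ν → NullMeasurableSet B ν) ∧ A ⊆ B ∧
            ∃ μ : Measure G, IsProbabilityMeasure μ ∧
              ∀ g h : G, μ ((fun x => g * x * h) '' B) = 0)) ∧
        ∃ A : Set G,
          (∃ B : Set G,
            (∀ ν : Measure G, IsProbabilityMeasure ν → NullMeasurableSet B ν) ∧ A ⊆ B ∧
            ∃ μ : Measure G, IsProbabilityMeasure μ ∧
              ∀ g h : G, μ ((fun x => g * x * h) '' B) = 0) ∧
          ¬ (∃ B : Set G, MeasurableSet B ∧ A ⊆ B ∧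
            ∃ μ : Measure G, IsProbabilityMeasure μ ∧
              ∀ g h : G, μ ((fun x => g * x * h) '' B) = 0) := by
  intro G _ _ _ _ _ _ hlc
  refine ⟨fun A hA => HN.haarNull_gen A hA, ?_⟩
  obtain ⟨A, hA, hA'⟩ := hMain G hlc
  exact ⟨A, hA, hA'⟩

end Pool.Agent.HNF
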