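import Pool.Agent.Helper71_HNF.Stmt

/-!
# HNF: GAU
-/

set_option autoImplicit false

namespace Pool.Agent.HNF.H71

open Topology Set Filter

theorem gau : GauStmt := by
  intro G _ _
  let _ := TopologicalSpace.upgradeIsCompletelyMetrizable G
  refine ⟨{
    Sm := fun n S => ∀ m ≤ n, ∀ x ∈ S, ∀ y ∈ S, dist x y ≤ (1/2 : ℝ) ^ m
    mono := fun n S T hST h m hm x hx y hy => h m hm x (hST hx) y (hST hy)
    anti := fun m n S hmn h k hk => h k (hk.trans hmn)
    nhds := ?_
    inter := ?_ }⟩
  · intro n g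
    refine ⟨Metric.closedBall g ((1/2 : ℝ) ^ n / 2),
      Metric.closedBall_mem_nhds _ (by positivity), ?_⟩
    intro m hm x hx y hy
    have : (1/2 : ℝ) ^ n ≤ (1/2) ^ m := pow_le_pow_of_le_one (by norm_num) (by norm_num) hm
    have h1 := Metric.mem_closedBall.1 hx
    have h2 := Metric.mem_closedBall.1 hy
    have h3 := dist_triangle_right x y g
    linarith
  · intro C hC hne hdec hsm
    choose c hc using hne
    have hanti : Antitone C := antitone_nat_of_succ_le hdec
    have hcau : CauchySeq c := by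
      rw [Metric.cauchySeq_iff']
      intro ε hε
      obtain ⟨n, hn⟩ := exists_pow_lt_of_lt_one hε (by norm_num : (1/2 : ℝ) < 1)
      refine ⟨n, fun k hk => ?_⟩
      exact (hsm n n le_rfl _ (hanti hk (hc k)) _ (hc n)).trans_lt hn
    obtain ⟨x, hx⟩ := cauchySeq_tendsto_of_complete hcau
    refine ⟨x, mem_iInter.2 fun n => ?_⟩
    exact (hC n).mem_of_tendsto hx (eventually_atTop.2 ⟨n, fun k hk => hanti hk (hc k)⟩)

end Pool.Agent.HNF.H71
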