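import Pool.Agent.Helper71_HNF.Fin
import Pool.Agent.Helper71_HNF.Gau
import Pool.Agent.Helper71_HNF.E2Loc
import Pool.Agent.Helper61_HNF.Bridge
import Pool.Agent.Helper61_HNF.Ded2
import Pool.Agent.Helper5_HNF.Idx
import Pool.Agent.Helper5_HNF.E2Stp
import Pool.Agent.Helper46_HNF.Skel
import Pool.Agent.Helper46_HNF.Capt
import Pool.Agent.Helper68_HNF.Rect
import Pool.Agent.Helper68_HNF.Sepb
import Pool.Agent.Helper10_HNF.Mods
import Pool.Agent.Helper44_HNF.E1Loc
import Pool.Agent.Helper50_HNF.E1Stp
import Pool.Agent.Helper8_HNF.Rec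

/-!
# HNF: the main theorem

In every Polish group which is not locally compact some set is generically Haar null and not
Haar null.
-/

set_option autoImplicit false

namespace Pool.Agent.HNF

/-- engine I -/
theorem e1' : E1Stmt :=
  e1 H44.e1loc (H50.e1stp H61.sep H10.e1Bad H10.e1Bad') H61.e1ded H71.gau

/-- engine II -/
theorem e2' : E2Stmt :=
  e2 H71.e2loc (H5.e2stp H10.e2Own H10.e2Step) H61.e2base H61.e2dec H61.e2lem H71.gau

/-- the main theorem -/
theorem main : MainStmt :=
  main_of H61.met H5.idx H46.skel H46.capt (H68.rect H8.rec' H8.chn H68.sepb) crit capx e1' e2'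


end Pool.Agent.HNF
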