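import Pool.Agent.Helper71_HNF.StmtE

/-!
# HNF: the recursions of the two engines

`Q1 t h a`, `Q2 t h a`: the local condition for the record `a` at the stage `t`, given the history
`h` (only the values `h s`, `s < t`, are used).
-/

set_option autoImplicit false

namespace Pool.Agent.HNF

open Topology Set MeasureTheory

section

variable {G : Type} [Group G] [TopologicalSpace G]

/-- `x` is relevant for `t`, and the right name `i` is used for it -/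
def RelI (I : Idx) (N : LNorm G) (q : ℕ → G) (D : Dat G) (t i : ℕ) (x : G) : Prop :=
  Rel I N q D t x ∧ N.N ((D.g (I.par t) * q i)⁻¹ * x) < D.η (I.th t)

/-- the approximate quotient `z_O⁻¹ z_N` -/
def eps0 (q : ℕ → G) (D : Dat G) (o j tN i : ℕ) : G := (D.g o * q j)⁻¹ * (D.g tN * q i)

/-! ### Engine I -/

/-- records of engine I -/
structure R1 (G : Type) where
  v : G
  g : G
  A : Set G
  L : Set G
  η : ℝ
  θ : ℕ → G
  V : Set G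
  V1 : Set G
  V2 : Set G
  U : Set G

/-- the data of a history -/
def D1 (h : ℕ → R1 G) : Dat G :=
  ⟨fun t => (h t).v, fun t => (h t).g, fun t => (h t).A, fun t => (h t).L, fun _ => 2,
    fun t => (h t).η⟩

/-- local condition of engine I -/
structure Q1 (I : Idx) (N : LNorm G) (q : ℕ → G) (Γ : Gauge G) (W0 W1 : Set G) (t : ℕ)
    (h : ℕ → R1 G) (a : R1 G) : Prop where
  zero : t = 0 → a.v = 1 ∧ a.g = 1
  v_mem : 0 < t → ∃ l, a.v = (h (I.par t)).θ l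
  g_eq : 0 < t → a.g = a.v * (h (I.par t)).g
  A_open : IsOpen a.A
  A_one : (1 : G) ∈ a.A
  L_open : IsOpen a.L
  L_one : (1 : G) ∈ a.L
  A_W : a.A ⊆ W1
  L_W : a.L ⊆ W1
  nest : 0 < t → ∀ x ∈ closure a.A, x * a.v ∈ (h (I.par t)).A
  gauge : Γ.Sm t {x | ∃ y ∈ closure a.A, x = y * a.g}
  right : 0 < t → ∀ i < I.rd t, ∀ x ∈ a.A,
    N.N ((a.g * q i)⁻¹ * x * (a.g * q i)) < (h (I.th t)).η
  inv : ∀ t' < t, 0 < t' → ∀ i < I.rd t', ∀ x ∈ a.A, ∀ l ∈ a.L,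
    N.N (((h t').g * q i)⁻¹ * (x * l) * ((h t').g * q i)) ≤ (h (I.th t')).η
  V2A : ∀ p < t, ∀ x ∈ a.A, ∀ l ∈ a.L, x * l ∈ (h p).V2
  θ_mem : ∀ l, a.θ l ∈ a.A
  θ_sep : ∀ l l', l ≠ l' → a.θ l * (a.θ l')⁻¹ ∉ a.V
  V2 : a.V2 ∈ 𝓝 (1 : G)
  VVV : ∀ x ∈ a.V2, ∀ w ∈ a.V1, ∀ y ∈ a.V2, x * w * y⁻¹ ∈ a.V
  U : a.U ∈ 𝓝 (1 : G)
  UI : ∀ x ∈ W0, ∀ c : ℕ → G, (∀ l, c l ∈ a.U) →
    ∃ l l', l ≠ l' ∧ x * c l * (c l')⁻¹ * x⁻¹ ∈ a.V1
  η_pos : 0 < a.η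
  η_le : ∀ s < t, a.η ≤ (h s).η
  η_conj : ∀ p < t, ∀ j < t, ∀ g, N.N g < 24 * a.η →
    (h p).g * q j * g * ((h p).g * q j)⁻¹ ∈ (h p).U
  sib : ∀ t' < t, 0 < t' → I.par t' = I.par t → ∀ i' < I.rd t',
    (∃ x', RelI I N q (D1 h) t' i' x') → ∀ x, Rel I N q (D1 h) t x →
    3 * (h (I.th t)).η + 2 * (h (I.th t')).η ≤ N.N (((h t').g * q i')⁻¹ * (a.v * x))
  pat : ∀ w < t, I.par t < w → ∀ j' < t, ∀ o < t, ∀ j < t, ∀ tN < I.th t, 0 < tN →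
    ∀ i < I.rd tN, I.par t < I.th tN → I.mp t ≤ I.th tN → ∀ x, Rel I N q (D1 h) t x →
    ∀ y ∈ (h w).A, ∀ l ∈ (h w).L, 6 * (h (I.th tN)).η ≤
      N.N ((y * l * ((h w).g * q j' * eps0 q (D1 h) o j tN i))⁻¹ * (a.v * x))

/-- E1LOC: the local condition is local. -/
def E1LocStmt : Prop := ∀ (G : Type) [Group G] [TopologicalSpace G] (I : Idx) (N : LNorm G)
  (q : ℕ → G) (Γ : Gauge G) (W0 W1 : Set G) (t : ℕ) (h h' : ℕ → R1 G) (a : R1 G),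
  (∀ s < t, h s = h' s) → Q1 I N q Γ W0 W1 t h a → Q1 I N q Γ W0 W1 t h' a

/-- E1STP: existence of the next record (from SEP and E1BAD). -/
def E1StpStmt : Prop := ∀ (G : Type) [Group G] [TopologicalSpace G] [IsTopologicalGroup G]
  [PolishSpace G], ¬ LocallyCompactSpace G →
  ∀ (I : Idx) (N : LNorm G) (q : ℕ → G) (Γ : Gauge G) (W0 W1 : Set G), Phi W0 →
  W1 ∈ 𝓝 (1 : G) → (∀ a ∈ W1, ∀ b ∈ W1, ∀ c ∈ W1, ∀ d ∈ W1, a⁻¹ * b⁻¹ * c * d ∈ W0) →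
  ∀ (t : ℕ) (h : ℕ → R1 G), (∀ s < t, Q1 I N q Γ W0 W1 s h (h s)) →
  ∃ a, Q1 I N q Γ W0 W1 t h a

/-- E1DED: the deductions. -/
def E1DedStmt : Prop := ∀ (G : Type) [Group G] [TopologicalSpace G] [IsTopologicalGroup G]
  [PolishSpace G] (I : Idx) (N : LNorm G) (q : ℕ → G) (Γ : Gauge G) (W0 W1 : Set G)
  (h : ℕ → R1 G), (∀ t, Q1 I N q Γ W0 W1 t h (h t)) → Good I N q (D1 h)

/-! ### Engine II -/

/-- records of engine II -/
structure R2 (G : Type) where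
  v : G
  g : G
  A : Set G
  L : Set G
  e : ℝ
  η : ℝ
  A' : Set G
  B' : Set G
  a : ℕ → G
  β : Set G

/-- the data of a history -/
def D2 (h : ℕ → R2 G) : Dat G :=
  ⟨fun t => (h t).v, fun t => (h t).g, fun t => (h t).A, fun t => (h t).L, fun t => (h t).e,
    fun t => (h t).η⟩

/-- the level of the node `t` -/
noncomputable def lev (I : Idx) (t : ℕ) : ℝ := 1 / ((I.mp t : ℝ) + 1)

/-- the pairs served by the node `w` at the stage `t`: right names of the nodes in `(w, t)` -/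
def Qlt (I : Idx) (N : LNorm G) (q : ℕ → G) (D : Dat G) (w t : ℕ) : Set (G × ℝ) :=
  {x | ∃ t', w < t' ∧ t' < t ∧ ∃ i < I.rd t', (∃ y, RelI I N q D t' i y) ∧
    x = (D.g t' * q i, lev I t' / 8)}

/-- the points named by the indices `< t` at the node `t` -/
def Cst (I : Idx) (q : ℕ → G) (D : Dat G) (t : ℕ) : Set G :=
  {c | ∃ t' < t, ∃ i < I.rd t', c = D.g t' * q i} ∪
  {c | ∃ i < I.rd t, c = D.g (I.par t) * q i} ∪
  {c | ∃ i < I.rd t, ∃ o < t, ∃ j < t, ∃ tN < t, ∃ i' < I.rd tN,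
    c = D.g (I.par t) * q i * eps0 q D o j tN i'}

/-- local condition of engine II -/
structure Q2 (I : Idx) (N : LNorm G) (q : ℕ → G) (Γ : Gauge G) (t : ℕ)
    (h : ℕ → R2 G) (a : R2 G) : Prop where
  zero : t = 0 → a.v = 1 ∧ a.g = 1
  v_mem : 0 < t → ∃ τ ∈ (h (I.par t)).B', ∃ m, a.v = τ⁻¹ * (h (I.par t)).a m
  g_eq : 0 < t → a.g = a.v * (h (I.par t)).g
  A_open : IsOpen a.A
  A_one : (1 : G) ∈ a.A
  L_open : IsOpen a.L
  L_one : (1 : G) ∈ a.L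
  nest : 0 < t → ∀ x ∈ closure a.A, x * a.v ∈ (h (I.par t)).A
  gauge : Γ.Sm t {x | ∃ y ∈ closure a.A, x = y * a.g}
  right : 0 < t → ∀ i < I.rd t, ∀ x ∈ a.A,
    N.N ((a.g * q i)⁻¹ * x * (a.g * q i)) < (h (I.th t)).η
  inv : ∀ t' < t, 0 < t' → ∀ i < I.rd t', ∀ x ∈ a.A, ∀ l ∈ a.L,
    N.N (((h t').g * q i)⁻¹ * (x * l) * ((h t').g * q i)) ≤ (h (I.th t')).η
  AB : ∀ τ ∈ a.B', ∀ x ∈ a.A', τ⁻¹ * x ∈ a.A
  own : Own N a.A' a.e a.a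
  β : a.β ∈ 𝓝 (1 : G)
  srv_self : Srv N a.B' a.β ∅
  srv : ∀ w < t, Srv N (h w).B' a.β (Qlt I N q (D2 h) w t ∪
    {x | ∃ i < I.rd t, (∃ y, RelI I N q (D2 h) t i y) ∧ x = (a.g * q i, lev I t / 8)})
  η_pos : 0 < a.η
  η_le : ∀ s < t, a.η ≤ (h s).η
  η_small : a.η ≤ 1 / (1000 * ((t : ℝ) + 1))
  η_conj : ∀ o < t, ∀ j < t, ∀ tN < t, 0 < tN → ∀ i < I.rd tN, ∀ g, N.N g < 2 * a.η →
    N.N ((eps0 q (D2 h) o j tN i)⁻¹ * g * eps0 q (D2 h) o j tN i) ≤ (h (I.th tN)).η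
  served : 0 < t → ∀ x ∈ Qlt I N q (D2 h) (I.par t) t, ∀ c ∈ Cst I q (D2 h) t,
    x.2 / 10 ≤ N.N (c⁻¹ * (a.v⁻¹ * x.1))
  avoid : 0 < t → ∀ i < I.rd t, (∃ y, RelI I N q (D2 h) t i y) → ∀ c ∈ Cst I q (D2 h) t,
    lev I t / 4 ≤ N.N (c⁻¹ * (a.v * ((h (I.par t)).g * q i)))

/-- E2LOC: the local condition is local. -/
def E2LocStmt : Prop := ∀ (G : Type) [Group G] [TopologicalSpace G] (I : Idx) (N : LNorm G)
  (q : ℕ → G) (Γ : Gauge G) (t : ℕ) (h h' : ℕ → R2 G) (a : R2 G),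
  (∀ s < t, h s = h' s) → Q2 I N q Γ t h a → Q2 I N q Γ t h' a

/-- E2STP: existence of the next record (from E2OWN and E2STEP). -/
def E2StpStmt : Prop := ∀ (G : Type) [Group G] [TopologicalSpace G] [IsTopologicalGroup G]
  [PolishSpace G], (∀ W ∈ 𝓝 (1 : G), ¬ Phi W) →
  ∀ (I : Idx) (N : LNorm G) (q : ℕ → G) (Γ : Gauge G) (t : ℕ) (h : ℕ → R2 G),
  (∀ s < t, Q2 I N q Γ s h (h s)) → ∃ a, Q2 I N q Γ t h a

/-- E2DEC: siblings have disjoint pieces. -/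
def E2DecStmt : Prop := ∀ (G : Type) [Group G] [TopologicalSpace G] [IsTopologicalGroup G]
  [PolishSpace G] (I : Idx) (N : LNorm G) (q : ℕ → G) (Γ : Gauge G)
  (h : ℕ → R2 G), (∀ t, Q2 I N q Γ t h (h t)) → Base I N q (D2 h) →
  ∀ t t', 0 < t → 0 < t' → t ≠ t' → I.par t = I.par t' →
    Disjoint (Pc I N q (D2 h) t) (Pc I N q (D2 h) t')

/-- E2LEM: the pattern. -/
def E2LemStmt : Prop := ∀ (G : Type) [Group G] [TopologicalSpace G] [IsTopologicalGroup G]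
  [PolishSpace G] (I : Idx) (N : LNorm G) (q : ℕ → G) (Γ : Gauge G)
  (h : ℕ → R2 G), (∀ t, Q2 I N q Γ t h (h t)) → Base I N q (D2 h) →
  ∀ n n' o' tN : ℕ, 0 < n → 0 < n' → 0 < o' → 0 < tN →
    I.par n < I.th tN → I.mp n ≤ I.th tN → tN < I.th (I.par o') → I.par o' < I.th n →
    I.mp o' ≤ I.th n → I.par n < I.par n' → I.par n' < I.th n → I.mp n' ≤ I.th n →
    n < I.th n' → 0 < I.par n' → 0 < I.par o' →
    ∀ zP ∈ Pc I N q (D2 h) n, ∀ zM ∈ Pc I N q (D2 h) n', ∀ zO ∈ Pc I N q (D2 h) o',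
      ∀ zN ∈ Pc I N q (D2 h) tN, zP ≠ zM * zO⁻¹ * zN

/-- BASE2: the base conditions for engine II (from CONV). -/
def E2BaseStmt : Prop := ∀ (G : Type) [Group G] [TopologicalSpace G] [IsTopologicalGroup G]
  [PolishSpace G] (I : Idx) (N : LNorm G) (q : ℕ → G) (Γ : Gauge G)
  (h : ℕ → R2 G), (∀ t, Q2 I N q Γ t h (h t)) → Base I N q (D2 h)

/-- CONV: convergence from the gauge. -/
def ConvStmt : Prop := ∀ (G : Type) [Group G] [TopologicalSpace G] [IsTopologicalGroup G]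
  (Γ : Gauge G) (I : Idx) (v g : ℕ → G) (A : ℕ → Set G),
  (∀ t, (1 : G) ∈ A t) → (∀ t, 0 < t → g t = v t * g (I.par t)) →
  (∀ t, 0 < t → ∀ x ∈ closure (A t), x * v t ∈ A (I.par t)) →
  (∀ t, Γ.Sm t {x | ∃ y ∈ closure (A t), x = y * g t}) →
  ∀ c : ℕ → ℕ, (∀ k, 0 < c (k + 1) ∧ I.par (c (k + 1)) = c k) →
    ∃ x : G, ∀ k, x * (g (c k))⁻¹ ∈ A (c k)

/-- SHR: small open sets with all the soft conditions exist: finitely many continuous maps sent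
`1` to open sets. -/
def E0Stmt : Prop := ∀ (G : Type) [Group G] [TopologicalSpace G] [IsTopologicalGroup G]
  [PolishSpace G] (I : Idx) (N : LNorm G) (q : ℕ → G) (D : Dat G), Base I N q D →
  ∀ o' tN, 0 < o' → 0 < tN → tN < I.par o' → ∀ zO ∈ Pc I N q D o', ∀ zN ∈ Pc I N q D tN,
  ∃ j < I.mp o', ∃ i < I.rd tN, (∃ y, RelI I N q D tN i y) ∧
    N.N ((eps0 q D (I.par o') j tN i)⁻¹ * (zO⁻¹ * zN)) < 3 * D.η (I.th tN)

end

end Pool.Agent.HNF
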